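import Mathlib

/-!
# Randomly deleted parts: decorrelation of linear functionals (helper978)
-/

set_option autoImplicit false

open MeasureTheory ProbabilityTheory Filter Topology

namespace Pool.Agent.R978.PD

/-- the sign of a parity -/
noncomputable def chi (x : ZMod 2) : ℝ := if x = 0 then 1 else -1

theorem zmod2 (x : ZMod 2) : x = 0 ∨ x = 1 := by
  fin_cases x
  · left; rfl
  · right; rfl

theorem chi_zero : chi 0 = 1 := by simp [chi]
theorem chi_one : chi 1 = -1 := by simp [chi]

theorem chi_add (x y : ZMod 2) : chi (x + y) = chi x * chi y := by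
  rcases zmod2 x with rfl | rfl <;> rcases zmod2 y with rfl | rfl
  · simp [chi_zero]
  · simp [chi_zero, chi_one]
  · simp [chi_zero, chi_one]
  · rw [show (1 + 1 : ZMod 2) = 0 by decide, chi_zero, chi_one]; norm_num

theorem abs_chi (x : ZMod 2) : |chi x| = 1 := by
  rcases zmod2 x with rfl | rfl
  · simp [chi_zero]
  · simp [chi_one]

theorem chi_sum {ι : Type} (s : Finset ι) (f : ι → ZMod 2) :
    chi (∑ i ∈ s, f i) = ∏ i ∈ s, chi (f i) := by
  classical
  induction s using Finset.induction_on with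
  | empty => simp [chi_zero]
  | insert a s ha ih => rw [Finset.sum_insert ha, Finset.prod_insert ha, chi_add, ih]

/-- cut off -/
def tr (h : ℕ) (r : ℕ → Bool) : ℕ → Bool := fun a => decide (a ≤ h) && r a

theorem tr_congr {h : ℕ} {r r' : ℕ → Bool} (H : ∀ a ≤ h, r a = r' a) : tr h r = tr h r' := by
  funext a
  unfold tr
  by_cases ha : a ≤ h
  · rw [H a ha]
  · simp [ha]

/-- triangular families of parities -/
structure Tri (c : (ℕ → Bool) → ℕ → ZMod 2) : Prop where
  zero : ∀ r, c r 0 = 1
  step : ∀ r h n, n ≤ 2 * h + 1 →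
    c r n = c (tr h r) n + ∑ a ∈ Finset.Ioc h n, (if r a then c r (n - a) else 0)

variable {c : (ℕ → Bool) → ℕ → ZMod 2}

theorem Tri.low (H : Tri c) {r : ℕ → Bool} {h n : ℕ} (hn : n ≤ h) : c r n = c (tr h r) n := by
  have h1 := H.step r h n (by omega)
  rw [Finset.Ioc_eq_empty (by omega), Finset.sum_empty, add_zero] at h1
  exact h1

theorem Tri.dep (H : Tri c) {r r' : ℕ → Bool} {n : ℕ} (h : ∀ a ≤ n, r a = r' a) :
    c r n = c r' n := by
  rw [H.low (le_refl n), H.low (r := r') (le_refl n), tr_congr h]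

theorem Tri.top (H : Tri c) {r : ℕ → Bool} {n : ℕ} (hn : 1 ≤ n) :
    c r n = (if r n then 1 else 0) + c (tr (n - 1) r) n := by
  have h1 := H.step r (n - 1) n (by omega)
  have h2 : Finset.Ioc (n - 1) n = {n} := by
    ext x; simp only [Finset.mem_Ioc, Finset.mem_singleton]; omega
  rw [h2, Finset.sum_singleton, Nat.sub_self, H.zero] at h1
  rw [h1, add_comm]

/-- linear functional -/
def fn (c : (ℕ → Bool) → ℕ → ZMod 2) (v : ℕ → ZMod 2) (u : ℕ) (r : ℕ → Bool) : ZMod 2 :=
  ∑ l ∈ Finset.range (u + 1), v l * c r l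

/-- coefficient of the coordinate `a` -/
def X (c : (ℕ → Bool) → ℕ → ZMod 2) (v : ℕ → ZMod 2) (u a : ℕ) (r : ℕ → Bool) : ZMod 2 :=
  ∑ l ∈ Finset.Icc a u, v l * c r (l - a)

theorem Tri.fn_eq (H : Tri c) (v : ℕ → ZMod 2) {u h : ℕ} (hu : u ≤ 2 * h + 1) (r : ℕ → Bool) :
    fn c v u r = fn c v u (tr h r) +
      ∑ a ∈ Finset.Ioc h u, (if r a then X c v u a (tr h r) else 0) := by
  have h1 : fn c v u r = ∑ l ∈ Finset.range (u + 1), (v l * c (tr h r) l +
      ∑ a ∈ Finset.Ioc h l, (if r a then v l * c (tr h r) (l - a) else 0)) := by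
    unfold fn
    refine Finset.sum_congr rfl fun l hl => ?_
    rw [Finset.mem_range] at hl
    rw [H.step r h l (by omega), mul_add, Finset.mul_sum]
    congr 1
    refine Finset.sum_congr rfl fun a ha => ?_
    rw [Finset.mem_Ioc] at ha
    rw [H.low (r := r) (h := h) (n := l - a) (by omega)]
    split_ifs
    · rfl
    · rw [mul_zero]
  rw [h1, Finset.sum_add_distrib]
  congr 1
  unfold X
  rw [Finset.sum_sigma', ]
  have h2 : ∀ a ∈ Finset.Ioc h u, (if r a then ∑ l ∈ Finset.Icc a u, v l * c (tr h r) (l - a) else 0) =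
      ∑ l ∈ Finset.Icc a u, (if r a then v l * c (tr h r) (l - a) else 0) := by
    intro a _
    split_ifs
    · rfl
    · simp
  rw [Finset.sum_congr rfl h2, Finset.sum_sigma']
  refine Finset.sum_bij' (fun x _ => ⟨x.2, x.1⟩) (fun x _ => ⟨x.2, x.1⟩) ?_ ?_ ?_ ?_ ?_
  · rintro ⟨l, a⟩ hx
    simp only [Finset.mem_sigma, Finset.mem_range, Finset.mem_Ioc, Finset.mem_Icc] at hx ⊢
    omega
  · rintro ⟨a, l⟩ hx
    simp only [Finset.mem_sigma, Finset.mem_range, Finset.mem_Ioc, Finset.mem_Icc] at hx ⊢
    omega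
  · rintro ⟨l, a⟩ _; rfl
  · rintro ⟨a, l⟩ _; rfl
  · rintro ⟨l, a⟩ _; rfl

/-! ### Resampling -/

/-- dependence on the coordinates up to `N` -/
def Dep (N : ℕ) (f : (ℕ → Bool) → ℝ) : Prop := ∀ r r', (∀ a ≤ N, r a = r' a) → f r = f r'

variable {Ω : Type} [MeasurableSpace Ω] {P : Measure Ω} [IsProbabilityMeasure P]
  {ξ : ℕ → Ω → Bool}

theorem Dep.mono {N M : ℕ} (h : N ≤ M) {f : (ℕ → Bool) → ℝ} (hf : Dep N f) : Dep M f :=
  fun r r' H => hf r r' fun a ha => H a (ha.trans h)

/-- a function of finitely many coordinates is measurable and bounded -/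
theorem Dep.factor {N : ℕ} {f : (ℕ → Bool) → ℝ} (hf : Dep N f) (S : Finset ℕ) (b : ℕ) (t : Bool)
    (hS : ∀ a ≤ N, a ≠ b → a ∈ S) (ω : ℕ → Bool) :
    f (Function.update ω b t) =
      (fun s : S → Bool => f (fun a => if a = b then t else if h : a ∈ S then s ⟨a, h⟩ else false))
        (fun i : S => ω i) := by
  refine hf _ _ fun a ha => ?_
  by_cases hab : a = b
  · subst hab; simp
  · rw [Function.update_of_ne hab, if_neg hab, dif_pos (hS a ha hab)]

theorem Dep.measurable {N : ℕ} {f : (ℕ → Bool) → ℝ} (hf : Dep N f) (hm : ∀ a, Measurable (ξ a)) :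
    Measurable fun ω => f (fun a => ξ a ω) := by
  have h1 : (fun ω => f (fun a => ξ a ω)) =
      (fun s : (Finset.range (N + 1)) → Bool =>
        f (fun a => if h : a ∈ Finset.range (N + 1) then s ⟨a, h⟩ else false)) ∘
      (fun ω (i : Finset.range (N + 1)) => ξ i ω) := by
    funext ω
    refine hf _ _ fun a ha => ?_
    rw [dif_pos (Finset.mem_range.2 (by omega))]
  rw [h1]
  refine Measurable.comp (measurable_of_countable _) ?_
  exact measurable_pi_lambda _ fun i => hm i

theorem Dep.bdd {N : ℕ} {f : (ℕ → Bool) → ℝ} (hf : Dep N f) : ∃ C : ℝ, ∀ r, |f r| ≤ C := by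
  classical
  let g : (Finset.range (N + 1) → Bool) → ℝ :=
    fun s => f (fun a => if h : a ∈ Finset.range (N + 1) then s ⟨a, h⟩ else false)
  refine ⟨∑ s, |g s|, fun r => ?_⟩
  have h1 : f r = g (fun i => r i) := by
    refine hf _ _ fun a ha => ?_
    rw [dif_pos (Finset.mem_range.2 (by omega))]
  rw [h1]
  have h2 := Finset.single_le_sum (s := Finset.univ) (f := fun s => |g s|)
    (fun s _ => abs_nonneg (g s)) (Finset.mem_univ (fun i : Finset.range (N + 1) => r i))
  exact h2

theorem Dep.integrable {N : ℕ} {f : (ℕ → Bool) → ℝ} (hf : Dep N f) (hm : ∀ a, Measurable (ξ a)) :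
    Integrable (fun ω => f (fun a => ξ a ω)) P := by
  obtain ⟨C, hC⟩ := hf.bdd
  exact Integrable.of_bound (hf.measurable hm).aestronglyMeasurable C
    (Eventually.of_forall fun ω => by rw [Real.norm_eq_abs]; exact hC _)

theorem Dep.update {N : ℕ} {f : (ℕ → Bool) → ℝ} (hf : Dep N f) (b : ℕ) (t : Bool) :
    Dep N (fun r => f (Function.update r b t)) := by
  intro r r' H
  refine hf _ _ fun a ha => ?_
  by_cases hab : a = b
  · subst hab; simp
  · rw [Function.update_of_ne hab, Function.update_of_ne hab, H a ha]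

/-- the probability of `true` -/
noncomputable def rho (P : Measure Ω) (ξ : ℕ → Ω → Bool) (a : ℕ) : ℝ :=
  P.real {ω | ξ a ω = true}

theorem resample (hm : ∀ a, Measurable (ξ a)) (hi : iIndepFun ξ P) {N : ℕ}
    {f : (ℕ → Bool) → ℝ} (hf : Dep N f) (b : ℕ) :
    ∫ ω, f (fun a => ξ a ω) ∂P = ∫ ω, (rho P ξ b * f (Function.update (fun a => ξ a ω) b true) +
      (1 - rho P ξ b) * f (Function.update (fun a => ξ a ω) b false)) ∂P := by
  classical
  set S : Finset ℕ := (Finset.range (N + 1)).erase b with hS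
  have hS1 : ∀ a ≤ N, a ≠ b → a ∈ S := fun a ha hab =>
    Finset.mem_erase.2 ⟨hab, Finset.mem_range.2 (by omega)⟩
  have hdisj : Disjoint S ({b} : Finset ℕ) := by
    rw [Finset.disjoint_singleton_right, hS]
    exact Finset.notMem_erase _ _
  have hind := hi.indepFun_finset S {b} hdisj hm
  have key : ∀ t : Bool, ∫ ω, (if ξ b ω = t then (1 : ℝ) else 0) *
      f (Function.update (fun a => ξ a ω) b t) ∂P =
      (∫ ω, (if ξ b ω = t then (1 : ℝ) else 0) ∂P) *
        ∫ ω, f (Function.update (fun a => ξ a ω) b t) ∂P := by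
    intro t
    have e1 : (fun ω => f (Function.update (fun a => ξ a ω) b t)) =
        (fun s : S → Bool => f (fun a => if a = b then t else if h : a ∈ S then s ⟨a, h⟩ else false))
          ∘ (fun ω (i : S) => ξ i ω) := by
      funext ω
      exact hf.factor S b t hS1 _
    have e2 : (fun ω => if ξ b ω = t then (1 : ℝ) else 0) =
        (fun s : ({b} : Finset ℕ) → Bool => if s ⟨b, Finset.mem_singleton_self b⟩ = t then (1 : ℝ) else 0)
          ∘ (fun ω (i : ({b} : Finset ℕ)) => ξ i ω) := by
      funext ω; rfl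
    have h3 : IndepFun (fun ω => if ξ b ω = t then (1 : ℝ) else 0)
        (fun ω => f (Function.update (fun a => ξ a ω) b t)) P := by
      rw [e1, e2]
      exact (hind.comp (measurable_of_countable _) (measurable_of_countable _)).symm
    exact h3.integral_fun_mul_eq_mul_integral
      (by
        refine Measurable.aestronglyMeasurable ?_
        exact (measurable_of_countable (fun x : Bool => if x = t then (1 : ℝ) else 0)).comp (hm b))
      ((hf.update b t).measurable hm).aestronglyMeasurable
  have hsplit : ∀ ω, f (fun a => ξ a ω) =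
      (if ξ b ω = true then (1 : ℝ) else 0) * f (Function.update (fun a => ξ a ω) b true) +
      (if ξ b ω = false then (1 : ℝ) else 0) * f (Function.update (fun a => ξ a ω) b false) := by
    intro ω
    have h1 : Function.update (fun a => ξ a ω) b (ξ b ω) = fun a => ξ a ω :=
      Function.update_eq_self b _
    cases hb : ξ b ω
    · rw [hb] at h1
      simp [h1]
    · rw [hb] at h1
      simp [h1]
  have hintt : ∀ t : Bool, Integrable (fun ω => (if ξ b ω = t then (1 : ℝ) else 0) *
      f (Function.update (fun a => ξ a ω) b t)) P := by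
    intro t
    obtain ⟨C, hC⟩ := hf.bdd
    refine Integrable.of_bound (Measurable.aestronglyMeasurable ?_) C
      (Eventually.of_forall fun ω => ?_)
    · exact ((measurable_of_countable (fun x : Bool => if x = t then (1 : ℝ) else 0)).comp (hm b)).mul
        ((hf.update b t).measurable hm)
    · rw [norm_mul, Real.norm_eq_abs, Real.norm_eq_abs]
      have h2 := hC (Function.update (fun a => ξ a ω) b t)
      split_ifs
      · simpa using h2
      · simp only [abs_zero, zero_mul]
        exact (abs_nonneg _).trans h2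
  have hp : ∀ t : Bool, ∫ ω, (if ξ b ω = t then (1 : ℝ) else 0) ∂P = P.real {ω | ξ b ω = t} := by
    intro t
    have h1 : (fun ω => if ξ b ω = t then (1 : ℝ) else 0) =
        Set.indicator {ω | ξ b ω = t} (fun _ => (1 : ℝ)) := by
      funext ω
      rw [Set.indicator_apply]
      rfl
    have h2 : MeasurableSet {ω | ξ b ω = t} := hm b (measurableSet_singleton t)
    rw [h1, integral_indicator_const (1 : ℝ) h2, smul_eq_mul, mul_one]
  have hcompl : P.real {ω | ξ b ω = false} = 1 - rho P ξ b := by
    have h1 : {ω | ξ b ω = false} = {ω | ξ b ω = true}ᶜ := by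
      ext ω; simp
    have h2 : MeasurableSet {ω | ξ b ω = true} := hm b (measurableSet_singleton true)
    rw [h1, probReal_compl_eq_one_sub h2]
    rfl
  rw [integral_congr_ae (Eventually.of_forall hsplit)]
  rw [integral_add (hintt true) (hintt false), key true, key false, hp, hp, hcompl]
  rw [integral_add ((hf.update b true).integrable hm |>.const_mul _)
    ((hf.update b false).integrable hm |>.const_mul _), integral_const_mul, integral_const_mul]
  rfl

end Pool.Agent.R978.PD
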