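import Pool.Agent.R978.PD.A

/-!
# Randomly deleted parts: the bound for linear functionals (helper978)
-/

set_option autoImplicit false
set_option linter.unusedSectionVars false

open MeasureTheory ProbabilityTheory Filter Topology

namespace Pool.Agent.R978.PD

variable {c : (ℕ → Bool) → ℕ → ZMod 2}
variable {Ω : Type} [MeasurableSpace Ω] {P : Measure Ω} [IsProbabilityMeasure P]
  {ξ : ℕ → Ω → Bool}

theorem rho_nonneg (a : ℕ) : 0 ≤ rho P ξ a := measureReal_nonneg
theorem rho_le_one (a : ℕ) : rho P ξ a ≤ 1 := measureReal_le_one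

theorem Dep.const (N : ℕ) (x : ℝ) : Dep N (fun _ => x) := fun _ _ _ => rfl

theorem Dep.mul {N : ℕ} {f g : (ℕ → Bool) → ℝ} (hf : Dep N f) (hg : Dep N g) :
    Dep N (fun r => f r * g r) := fun r r' H => by
  show f r * g r = f r' * g r'
  rw [hf r r' H, hg r r' H]

theorem Dep.prod {N : ℕ} {ι : Type} (s : Finset ι) {f : ι → (ℕ → Bool) → ℝ}
    (hf : ∀ i ∈ s, Dep N (f i)) : Dep N (fun r => ∏ i ∈ s, f i r) := fun r r' H => by
  show ∏ i ∈ s, f i r = ∏ i ∈ s, f i r'
  exact Finset.prod_congr rfl fun i hi => hf i hi r r' H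

theorem Dep.upd {N b : ℕ} {f : (ℕ → Bool) → ℝ} (hf : Dep N f) (hb : N < b) (r : ℕ → Bool)
    (t : Bool) : f (Function.update r b t) = f r :=
  hf _ _ fun a ha => Function.update_of_ne (by omega) _ _

theorem phase1 (hm : ∀ a, Measurable (ξ a)) (hi : iIndepFun ξ P) {h : ℕ}
    (g : ℕ → (ℕ → Bool) → ℝ) (hg : ∀ a, Dep h (g a)) (t : ℕ) (ht : h ≤ t) :
    ∀ κ : (ℕ → Bool) → ℝ, Dep h κ →
    ∫ ω, (κ (fun a => ξ a ω) * ∏ a ∈ Finset.Ioc h t, (if ξ a ω then g a (fun a => ξ a ω) else 1)) ∂P =
    ∫ ω, (κ (fun a => ξ a ω) *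
      ∏ a ∈ Finset.Ioc h t, (rho P ξ a * g a (fun a => ξ a ω) + (1 - rho P ξ a))) ∂P := by
  induction t, ht using Nat.le_induction with
  | base => intro κ _; simp
  | succ t ht ih =>
    intro κ hκ
    have hfac : ∀ a ∈ Finset.Ioc h t, Dep t (fun r : ℕ → Bool => if r a then g a r else 1) := by
      intro a ha r r' H
      show (if r a then g a r else 1) = (if r' a then g a r' else 1)
      rw [Finset.mem_Ioc] at ha
      rw [H a ha.2, hg a r r' (fun a' ha' => H a' (ha'.trans ht))]
    have hpr := Dep.prod (N := t) (Finset.Ioc h t) hfac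
    have hdep : Dep (t + 1) (fun r : ℕ → Bool =>
        κ r * ((∏ a ∈ Finset.Ioc h t, (if r a then g a r else 1)) *
          (if r (t + 1) then g (t + 1) r else 1))) := by
      refine (hκ.mono (by omega)).mul ((hpr.mono (by omega)).mul ?_)
      intro r r' H
      show (if r (t + 1) then g (t + 1) r else 1) = (if r' (t + 1) then g (t + 1) r' else 1)
      rw [H (t + 1) le_rfl, hg (t + 1) r r' (fun a' ha' => H a' (by omega))]
    have h1 := resample hm hi hdep (t + 1)
    have e1 : ∀ ω, (κ (fun a => ξ a ω) *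
        ∏ a ∈ Finset.Ioc h (t + 1), (if ξ a ω then g a (fun a => ξ a ω) else 1)) =
        (fun r : ℕ → Bool =>
        κ r * ((∏ a ∈ Finset.Ioc h t, (if r a then g a r else 1)) *
          (if r (t + 1) then g (t + 1) r else 1))) (fun a => ξ a ω) := by
      intro ω
      rw [Finset.prod_Ioc_succ_top (by omega)]
    rw [integral_congr_ae (Eventually.of_forall e1), h1]
    have h2 := ih (fun r => κ r * (rho P ξ (t + 1) * g (t + 1) r + (1 - rho P ξ (t + 1))))
      (hκ.mul fun r r' H => by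
        show rho P ξ (t + 1) * g (t + 1) r + (1 - rho P ξ (t + 1)) =
          rho P ξ (t + 1) * g (t + 1) r' + (1 - rho P ξ (t + 1))
        rw [hg (t + 1) r r' H])
    have e2 : ∀ ω, (rho P ξ (t + 1) * (fun r : ℕ → Bool =>
        κ r * ((∏ a ∈ Finset.Ioc h t, (if r a then g a r else 1)) *
          (if r (t + 1) then g (t + 1) r else 1))) (Function.update (fun a => ξ a ω) (t + 1) true) +
        (1 - rho P ξ (t + 1)) * (fun r : ℕ → Bool =>
        κ r * ((∏ a ∈ Finset.Ioc h t, (if r a then g a r else 1)) *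
          (if r (t + 1) then g (t + 1) r else 1))) (Function.update (fun a => ξ a ω) (t + 1) false)) =
        (fun r => κ r * (rho P ξ (t + 1) * g (t + 1) r + (1 - rho P ξ (t + 1)))) (fun a => ξ a ω) *
          ∏ a ∈ Finset.Ioc h t, (if ξ a ω then g a (fun a => ξ a ω) else 1) := by
      intro ω
      simp only [Function.update_self]
      rw [hκ.upd (by omega), hκ.upd (by omega), (hg (t + 1)).upd (by omega),
        hpr.upd (by omega), hpr.upd (by omega)]
      simp only [if_true, Bool.false_eq_true, if_false]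
      ring
    rw [integral_congr_ae (Eventually.of_forall e2), h2]
    refine integral_congr_ae (Eventually.of_forall fun ω => ?_)
    beta_reduce
    rw [Finset.prod_Ioc_succ_top (by omega)]
    ring

/-- weight -/
noncomputable def w (σ : ℝ) (x : ZMod 2) : ℝ := if x = 0 then 1 else 1 - 2 * σ

theorem w_nonneg {σ : ℝ} (h : σ ≤ 1 / 2) (x : ZMod 2) : 0 ≤ w σ x := by
  unfold w; split_ifs <;> linarith
theorem w_le_one {σ : ℝ} (h : 0 ≤ σ) (x : ZMod 2) : w σ x ≤ 1 := by
  unfold w; split_ifs <;> linarith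

theorem phase2 (hm : ∀ a, Measurable (ξ a)) (hi : iIndepFun ξ P) {b : ℕ}
    (y F : ℕ → (ℕ → Bool) → ZMod 2)
    (hy : ∀ j, 1 ≤ j → ∀ r : ℕ → Bool, y j r = (if r j then 1 else 0) + F j r)
    (hF : ∀ j, 1 ≤ j → ∀ r r' : ℕ → Bool, (∀ a ≤ j - 1, r a = r' a) → F j r = F j r')
    {σ : ℝ} (h0 : 0 ≤ σ) (h1 : σ ≤ 1 / 2) (J : ℕ)
    (hρ : ∀ a, b < a → a ≤ J → σ ≤ rho P ξ a ∧ rho P ξ a ≤ 1 - σ) :
    ∫ ω, (∏ j ∈ Finset.Ioc b J, w σ (y j (fun a => ξ a ω))) ∂P ≤ (1 - 2 * σ ^ 2) ^ (J - b) := by
  induction J with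
  | zero => simp
  | succ J ih =>
    rcases Nat.lt_or_ge J b with hJ | hJ
    · rw [Finset.Ioc_eq_empty (by omega), show J + 1 - b = 0 by omega]
      simp
    have hyd : ∀ j, 1 ≤ j → Dep j (fun r => w σ (y j r)) := by
      intro j hj r r' H
      show w σ (y j r) = w σ (y j r')
      rw [hy j hj, hy j hj, H j le_rfl, hF j hj r r' (fun a ha => H a (by omega))]
    have hpr : Dep J (fun r => ∏ j ∈ Finset.Ioc b J, w σ (y j r)) :=
      Dep.prod _ fun j hj => by
        rw [Finset.mem_Ioc] at hj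
        exact (hyd j (by omega)).mono hj.2
    have hdep : Dep (J + 1) (fun r => (∏ j ∈ Finset.Ioc b J, w σ (y j r)) * w σ (y (J + 1) r)) :=
      (hpr.mono (by omega)).mul (hyd (J + 1) (by omega))
    have h2 := resample hm hi hdep (J + 1)
    have e1 : ∀ ω, (∏ j ∈ Finset.Ioc b (J + 1), w σ (y j (fun a => ξ a ω))) =
        (fun r => (∏ j ∈ Finset.Ioc b J, w σ (y j r)) * w σ (y (J + 1) r)) (fun a => ξ a ω) := by
      intro ω
      rw [Finset.prod_Ioc_succ_top (by omega)]
    rw [integral_congr_ae (Eventually.of_forall e1), h2]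
    have hFd : ∀ (r : ℕ → Bool) (t : Bool), F (J + 1) (Function.update r (J + 1) t) = F (J + 1) r :=
      fun r t => hF (J + 1) (by omega) _ _ fun a ha => Function.update_of_ne (by omega) _ _
    have hle : ∀ ω, (rho P ξ (J + 1) * (fun r => (∏ j ∈ Finset.Ioc b J, w σ (y j r)) *
        w σ (y (J + 1) r)) (Function.update (fun a => ξ a ω) (J + 1) true) +
        (1 - rho P ξ (J + 1)) * (fun r => (∏ j ∈ Finset.Ioc b J, w σ (y j r)) *
        w σ (y (J + 1) r)) (Function.update (fun a => ξ a ω) (J + 1) false)) ≤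
        (1 - 2 * σ ^ 2) * ∏ j ∈ Finset.Ioc b J, w σ (y j (fun a => ξ a ω)) := by
      intro ω
      obtain ⟨p1, p2⟩ := hρ (J + 1) (by omega) le_rfl
      simp only
      rw [hpr.upd (by omega), hpr.upd (by omega), hy (J + 1) (by omega), hy (J + 1) (by omega),
        Function.update_self, Function.update_self, hFd, hFd]
      have hp0 : 0 ≤ ∏ j ∈ Finset.Ioc b J, w σ (y j (fun a => ξ a ω)) :=
        Finset.prod_nonneg fun j _ => w_nonneg h1 _
      have h3 : rho P ξ (J + 1) * w σ ((if (true : Bool) = true then 1 else 0) +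
          F (J + 1) (fun a => ξ a ω)) + (1 - rho P ξ (J + 1)) *
          w σ ((if (false : Bool) = true then 1 else 0) + F (J + 1) (fun a => ξ a ω)) ≤
          1 - 2 * σ ^ 2 := by
        rcases zmod2 (F (J + 1) (fun a => ξ a ω)) with hz | hz
        · rw [hz]
          simp only [w, if_true, Bool.false_eq_true, if_false, add_zero]
          rw [if_neg (by decide : ¬ (1 : ZMod 2) = 0)]
          nlinarith
        · rw [hz]
          simp only [w, if_true, Bool.false_eq_true, if_false, zero_add]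
          rw [if_neg (by decide : ¬ (1 : ZMod 2) = 0), if_pos (by decide : (1 + 1 : ZMod 2) = 0)]
          nlinarith
      calc _ = (∏ j ∈ Finset.Ioc b J, w σ (y j (fun a => ξ a ω))) *
            (rho P ξ (J + 1) * w σ ((if (true : Bool) = true then 1 else 0) +
          F (J + 1) (fun a => ξ a ω)) + (1 - rho P ξ (J + 1)) *
          w σ ((if (false : Bool) = true then 1 else 0) + F (J + 1) (fun a => ξ a ω))) := by ring
        _ ≤ (∏ j ∈ Finset.Ioc b J, w σ (y j (fun a => ξ a ω))) * (1 - 2 * σ ^ 2) :=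
            mul_le_mul_of_nonneg_left h3 hp0
        _ = _ := by ring
    have hint : Integrable (fun ω => ∏ j ∈ Finset.Ioc b J, w σ (y j (fun a => ξ a ω))) P :=
      hpr.integrable hm
    have h4 := integral_mono
      (((hdep.update (J + 1) true).integrable (P := P) hm |>.const_mul (rho P ξ (J + 1))).add
        ((hdep.update (J + 1) false).integrable (P := P) hm |>.const_mul (1 - rho P ξ (J + 1))))
      (hint.const_mul (1 - 2 * σ ^ 2)) hle
    refine le_trans h4 ?_
    rw [integral_const_mul]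
    have h5 := ih fun a ha ha' => hρ a ha (by omega)
    have h6 : 0 ≤ 1 - 2 * σ ^ 2 := by nlinarith
    calc (1 - 2 * σ ^ 2) * ∫ ω, (∏ j ∈ Finset.Ioc b J, w σ (y j (fun a => ξ a ω))) ∂P
        ≤ (1 - 2 * σ ^ 2) * (1 - 2 * σ ^ 2) ^ (J - b) := mul_le_mul_of_nonneg_left h5 h6
      _ = (1 - 2 * σ ^ 2) ^ (J + 1 - b) := by
          rw [← pow_succ', show J + 1 - b = J - b + 1 by omega]

theorem decorr (H : Tri c) (hm : ∀ a, Measurable (ξ a)) (hi : iIndepFun ξ P)
    (v : ℕ → ZMod 2) (u : ℕ) (hv : v u = 1) {b : ℕ} {σ : ℝ} (h0 : 0 ≤ σ) (h1 : σ ≤ 1 / 2)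
    (hb : b ≤ u / 2) (hρ : ∀ a, b < a → a ≤ u → σ ≤ rho P ξ a ∧ rho P ξ a ≤ 1 - σ) :
    |∫ ω, chi (fn c v u (fun a => ξ a ω)) ∂P| ≤ (1 - 2 * σ ^ 2) ^ (u - u / 2 - 1 - b) := by
  classical
  obtain ⟨h, hh⟩ : ∃ h, h = u / 2 := ⟨_, rfl⟩
  rw [← hh] at hb ⊢
  have huh : u ≤ 2 * h + 1 := by omega
  -- expansion
  have e1 : ∀ ω, chi (fn c v u (fun a => ξ a ω)) = chi (fn c v u (tr h (fun a => ξ a ω))) *
      ∏ a ∈ Finset.Ioc h u, (if ξ a ω then chi (X c v u a (tr h (fun a => ξ a ω))) else 1) := by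
    intro ω
    rw [H.fn_eq v huh, chi_add, chi_sum]
    congr 1
    refine Finset.prod_congr rfl fun a _ => ?_
    split_ifs
    · rfl
    · exact chi_zero
  have hgd : ∀ a, Dep h (fun r => chi (X c v u a (tr h r))) := by
    intro a r r' Hr
    show chi (X c v u a (tr h r)) = chi (X c v u a (tr h r'))
    rw [tr_congr Hr]
  have hκd : Dep h (fun r => chi (fn c v u (tr h r))) := by
    intro r r' Hr
    show chi (fn c v u (tr h r)) = chi (fn c v u (tr h r'))
    rw [tr_congr Hr]
  rw [integral_congr_ae (Eventually.of_forall e1)]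
  have h2 := phase1 hm hi (fun a r => chi (X c v u a (tr h r))) hgd u (by omega)
    (fun r => chi (fn c v u (tr h r))) hκd
  rw [h2]
  -- the functionals y
  set y : ℕ → (ℕ → Bool) → ZMod 2 := fun j r => X c v u (u - j) r with hydef
  have hX : ∀ a, h < a → ∀ r, X c v u a (tr h r) = X c v u a r := by
    intro a ha r
    unfold X
    refine Finset.sum_congr rfl fun l hl => ?_
    rw [Finset.mem_Icc] at hl
    rw [← H.low (by omega)]
  -- pointwise bound
  have hpt : ∀ ω, |chi (fn c v u (tr h (fun a => ξ a ω))) *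
      ∏ a ∈ Finset.Ioc h u, (rho P ξ a * chi (X c v u a (tr h (fun a => ξ a ω))) +
        (1 - rho P ξ a))| ≤ ∏ j ∈ Finset.Ioc b (u - h - 1), w σ (y j (fun a => ξ a ω)) := by
    intro ω
    rw [abs_mul, abs_chi, one_mul, Finset.abs_prod]
    have s1 : ∏ a ∈ Finset.Ioc h u, |rho P ξ a * chi (X c v u a (tr h (fun a => ξ a ω))) +
        (1 - rho P ξ a)| ≤ ∏ a ∈ Finset.Ioc h u, w σ (X c v u a (fun a => ξ a ω)) := by
      refine Finset.prod_le_prod (fun a _ => abs_nonneg _) fun a ha => ?_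
      rw [Finset.mem_Ioc] at ha
      rw [hX a ha.1]
      obtain ⟨p1, p2⟩ := hρ a (by omega) ha.2
      rcases zmod2 (X c v u a (fun a => ξ a ω)) with hz | hz
      · rw [hz, chi_zero]
        unfold w
        rw [if_pos rfl, show rho P ξ a * 1 + (1 - rho P ξ a) = 1 by ring, abs_one]
      · rw [hz, chi_one]
        unfold w
        rw [if_neg (by decide : ¬ (1 : ZMod 2) = 0), abs_le]
        constructor <;> linarith
    refine s1.trans ?_
    have hsub : (Finset.Ioc b (u - h - 1)).image (fun j => u - j) ⊆ Finset.Ioc h u := by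
      intro a ha
      rw [Finset.mem_image] at ha
      obtain ⟨j, hj, rfl⟩ := ha
      rw [Finset.mem_Ioc] at hj ⊢
      omega
    rw [← Finset.prod_sdiff hsub]
    have s2 : ∏ a ∈ Finset.Ioc h u \ (Finset.Ioc b (u - h - 1)).image (fun j => u - j),
        w σ (X c v u a (fun a => ξ a ω)) ≤ 1 :=
      Finset.prod_le_one (fun a _ => w_nonneg h1 _) fun a _ => w_le_one h0 _
    have s3 : ∏ a ∈ (Finset.Ioc b (u - h - 1)).image (fun j => u - j),
        w σ (X c v u a (fun a => ξ a ω)) =
        ∏ j ∈ Finset.Ioc b (u - h - 1), w σ (y j (fun a => ξ a ω)) := by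
      rw [Finset.prod_image]
      intro i hi j hj hij
      simp only [Finset.coe_Ioc, Set.mem_Ioc] at hi hj
      simp only at hij
      omega
    rw [s3]
    exact mul_le_of_le_one_left (Finset.prod_nonneg fun j _ => w_nonneg h1 _) s2
  have hyF : ∀ j, 1 ≤ j → j ≤ u → ∀ r : ℕ → Bool, y j r = (if r j then 1 else 0) +
      (c (tr (j - 1) r) j + ∑ l ∈ Finset.Ico (u - j) u, v l * c r (l - (u - j))) := by
    intro j hj hju r
    show ∑ l ∈ Finset.Icc (u - j) u, v l * c r (l - (u - j)) = _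
    rw [← Finset.Ico_insert_right (show u - j ≤ u by omega), Finset.sum_insert (by simp), hv, one_mul,
      show u - (u - j) = j by omega, H.top hj]
    ring
  -- apply phase 2 with a truncated family
  set y' : ℕ → (ℕ → Bool) → ZMod 2 := fun j r => if j ≤ u then y j r else (if r j then 1 else 0)
    with hy'
  set F : ℕ → (ℕ → Bool) → ZMod 2 := fun j r => if j ≤ u then
    (c (tr (j - 1) r) j + ∑ l ∈ Finset.Ico (u - j) u, v l * c r (l - (u - j))) else 0 with hFdef
  have p2 := phase2 (P := P) hm hi (b := b) y' F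
    (by
      intro j hj r
      simp only [hy', hFdef]
      by_cases hju : j ≤ u
      · rw [if_pos hju, if_pos hju, hyF j hj hju]
      · rw [if_neg hju, if_neg hju, add_zero])
    (by
      intro j hj r r' Hr
      simp only [hFdef]
      by_cases hju : j ≤ u
      · rw [if_pos hju, if_pos hju, tr_congr Hr]
        congr 1
        refine Finset.sum_congr rfl fun l hl => ?_
        rw [Finset.mem_Ico] at hl
        rw [H.dep (r := r) (r' := r') (n := l - (u - j)) (fun a ha => Hr a (by omega))]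
      · rw [if_neg hju, if_neg hju])
    h0 h1 (u - h - 1) (fun a ha ha' => hρ a ha (by omega))
  have e3 : ∀ ω, ∏ j ∈ Finset.Ioc b (u - h - 1), w σ (y' j (fun a => ξ a ω)) =
      ∏ j ∈ Finset.Ioc b (u - h - 1), w σ (y j (fun a => ξ a ω)) := by
    intro ω
    refine Finset.prod_congr rfl fun j hj => ?_
    rw [Finset.mem_Ioc] at hj
    simp only [hy']
    rw [if_pos (by omega)]
  rw [integral_congr_ae (Eventually.of_forall e3)] at p2
  refine le_trans (abs_integral_le_integral_abs) (le_trans ?_ p2)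
  refine integral_mono_of_nonneg (Eventually.of_forall fun ω => abs_nonneg _) ?_
    (Eventually.of_forall hpt)
  have hdy : Dep u (fun r => ∏ j ∈ Finset.Ioc b (u - h - 1), w σ (y j r)) :=
    Dep.prod _ fun j hj r r' Hr => by
      show w σ (y j r) = w σ (y j r')
      simp only [hydef, X]
      congr 1
      refine Finset.sum_congr rfl fun l hl => ?_
      rw [Finset.mem_Icc] at hl
      rw [H.dep (r := r) (r' := r') (n := l - (u - j)) (fun a ha => Hr a (by omega))]
  exact hdy.integrable hm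

end Pool.Agent.R978.PD
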