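import Pool.Agent.R978.PD.B

/-!
# Randomly deleted parts: frequencies of patterns (helper978)
-/

set_option autoImplicit false
set_option linter.unusedSectionVars false

open MeasureTheory ProbabilityTheory Filter Topology
open scoped ENNReal

namespace Pool.Agent.R978.PD

variable {c : (ℕ → Bool) → ℕ → ZMod 2}
variable {Ω : Type} [MeasurableSpace Ω] {P : Measure Ω} [IsProbabilityMeasure P]
  {ξ : ℕ → Ω → Bool}

/-! ### a strong law -/

theorem of_squares {S : ℕ → ℝ} (hS : ∀ n m, n ≤ m → |S m - S n| ≤ (m - n : ℝ))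
    (h : Tendsto (fun M : ℕ => S ((M + 1) ^ 2) / (((M + 1) ^ 2 : ℕ) : ℝ)) atTop (𝓝 0)) :
    Tendsto (fun n : ℕ => S n / n) atTop (𝓝 0) := by
  have hsq : Tendsto (fun N : ℕ => Nat.sqrt N - 1) atTop atTop := by
    rw [tendsto_atTop_atTop]
    intro b
    refine ⟨(b + 1) ^ 2, fun N hN => ?_⟩
    have h1 : b + 1 ≤ Nat.sqrt N := by
      rw [Nat.le_sqrt']
      exact hN
    omega
  have h1 := h.comp hsq
  have h2 : Tendsto (fun N : ℕ => |S ((Nat.sqrt N - 1 + 1) ^ 2) / (((Nat.sqrt N - 1 + 1) ^ 2 : ℕ) : ℝ)|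
      + 2 / (Nat.sqrt N : ℝ)) atTop (𝓝 0) := by
    have h3 : Tendsto (fun N : ℕ => 2 / (Nat.sqrt N : ℝ)) atTop (𝓝 0) := by
      apply Tendsto.const_div_atTop
      apply tendsto_natCast_atTop_atTop.comp
      rw [tendsto_atTop_atTop]
      intro b
      exact ⟨b ^ 2, fun N hN => by rwa [Nat.le_sqrt']⟩
    have h4 := h1.abs.add h3
    simp only [abs_zero, add_zero] at h4
    exact h4
  rw [tendsto_zero_iff_abs_tendsto_zero]
  refine squeeze_zero' (Eventually.of_forall fun N => abs_nonneg _) ?_ h2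
  filter_upwards [eventually_ge_atTop 1] with N hN
  set M := Nat.sqrt N with hM
  have hM1 : 1 ≤ M := by
    rw [hM, Nat.le_sqrt']
    simpa using hN
  have hM2 : M ^ 2 ≤ N := Nat.sqrt_le' N
  have hM3 : N < (M + 1) ^ 2 := Nat.lt_succ_sqrt' N
  have hMe : M - 1 + 1 = M := by omega
  rw [hMe]
  have hN0 : (0 : ℝ) < N := by exact_mod_cast hN
  have hMr : (0 : ℝ) < M := by exact_mod_cast hM1
  have hM2r : (M : ℝ) ^ 2 ≤ N := by exact_mod_cast hM2
  have hM3r : (N : ℝ) ≤ M ^ 2 + 2 * M := by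
    have : N ≤ M ^ 2 + 2 * M := by nlinarith
    exact_mod_cast this
  have h5 := hS _ _ hM2
  have h6 : |S N| ≤ |S (M ^ 2)| + 2 * M := by
    have h7 : |S N| ≤ |S (M ^ 2)| + |S N - S (M ^ 2)| := by
      calc |S N| = |S (M ^ 2) + (S N - S (M ^ 2))| := by ring_nf
        _ ≤ _ := abs_add_le _ _
    push_cast at h5
    linarith
  have e0 : |((fun n : ℕ => S n / n) N)| = |S N| / N := by
    show |S N / N| = _
    rw [abs_div, abs_of_pos hN0]
  show |S N / N| ≤ _
  rw [abs_div, abs_of_pos hN0, abs_div]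
  have hM4 : |(((M ^ 2 : ℕ) : ℝ))| = (M : ℝ) ^ 2 := by
    push_cast
    exact abs_of_pos (by positivity)
  rw [hM4]
  have hM5 : (0 : ℝ) < (M : ℝ) ^ 2 := by positivity
  calc |S N| / N ≤ (|S (M ^ 2)| + 2 * M) / N := div_le_div_of_nonneg_right h6 hN0.le
    _ ≤ (|S (M ^ 2)| + 2 * M) / (M : ℝ) ^ 2 :=
        div_le_div_of_nonneg_left (by positivity) hM5 hM2r
    _ = |S (M ^ 2)| / (M : ℝ) ^ 2 + 2 / M := by
        rw [add_div]
        congr 1
        field_simp

theorem slln_sq {Y : ℕ → Ω → ℝ} (hm : ∀ k, Measurable (Y k)) (hb : ∀ k ω, |Y k ω| ≤ 1)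
    {C : ℝ} (hC : 0 ≤ C) (h2 : ∀ x : ℕ, ∫ ω, (∑ k ∈ Finset.range x, Y k ω) ^ 2 ∂P ≤ C * x) :
    ∀ᵐ ω ∂P, Tendsto (fun x : ℕ => (∑ k ∈ Finset.range x, Y k ω) / x) atTop (𝓝 0) := by
  have hSm : ∀ N : ℕ, Measurable fun ω => (∑ k ∈ Finset.range N, Y k ω) / (N : ℝ) :=
    fun N => (Finset.measurable_sum _ fun k _ => hm k).div_const _
  have hSb : ∀ (N : ℕ) (ω : Ω), |∑ k ∈ Finset.range N, Y k ω| ≤ N := by
    intro N ω
    refine (Finset.abs_sum_le_sum_abs _ _).trans ((Finset.sum_le_sum fun k _ => hb k ω).trans ?_)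
    simp
  have hAb : ∀ (N : ℕ) (ω : Ω), |(∑ k ∈ Finset.range N, Y k ω) / (N : ℝ)| ≤ 1 := by
    intro N ω
    rw [abs_div, Nat.abs_cast]
    rcases Nat.eq_zero_or_pos N with rfl | hN
    · simp
    · rw [div_le_one (by exact_mod_cast hN)]
      exact hSb N ω
  have hA2 : ∀ M : ℕ, ∫ ω, ((∑ k ∈ Finset.range ((M + 1) ^ 2), Y k ω) / (((M + 1) ^ 2 : ℕ) : ℝ)) ^ 2 ∂P
      ≤ C * (1 / ((M : ℝ) + 1) ^ 2) := by
    intro M
    have e1 : ∀ ω, ((∑ k ∈ Finset.range ((M + 1) ^ 2), Y k ω) / (((M + 1) ^ 2 : ℕ) : ℝ)) ^ 2 =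
        (1 / ((M : ℝ) + 1) ^ 4) * (∑ k ∈ Finset.range ((M + 1) ^ 2), Y k ω) ^ 2 := by
      intro ω
      push_cast
      field_simp
    simp only [e1]
    rw [integral_const_mul]
    have h1 := h2 ((M + 1) ^ 2)
    have h3 : (0 : ℝ) ≤ 1 / ((M : ℝ) + 1) ^ 4 := by positivity
    refine (mul_le_mul_of_nonneg_left h1 h3).trans (le_of_eq ?_)
    push_cast
    field_simp
  have hsum : ∑' M : ℕ, ∫⁻ ω, ENNReal.ofReal
      (((∑ k ∈ Finset.range ((M + 1) ^ 2), Y k ω) / (((M + 1) ^ 2 : ℕ) : ℝ)) ^ 2) ∂P ≠ ∞ := by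
    have h1 : ∀ M : ℕ, ∫⁻ ω, ENNReal.ofReal
        (((∑ k ∈ Finset.range ((M + 1) ^ 2), Y k ω) / (((M + 1) ^ 2 : ℕ) : ℝ)) ^ 2) ∂P ≤
        ENNReal.ofReal (C * (1 / ((M : ℝ) + 1) ^ 2)) := by
      intro M
      rw [← ofReal_integral_eq_lintegral_ofReal]
      · exact ENNReal.ofReal_le_ofReal (hA2 M)
      · refine Integrable.of_bound ((hSm _).pow_const 2).aestronglyMeasurable 1
          (Eventually.of_forall fun ω => ?_)
        rw [Real.norm_of_nonneg (by positivity), ← sq_abs]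
        exact pow_le_one₀ (abs_nonneg _) (hAb _ ω)
      · exact Eventually.of_forall fun ω => by positivity
    have h3 : Summable fun M : ℕ => C * (1 / ((M : ℝ) + 1) ^ 2) := by
      apply Summable.mul_left
      have h3 := (summable_nat_add_iff 1).mpr (Real.summable_one_div_nat_pow.mpr one_lt_two)
      refine h3.congr fun M => ?_
      push_cast
      rfl
    refine ne_top_of_le_ne_top ?_ (ENNReal.tsum_le_tsum h1)
    rw [← ENNReal.ofReal_tsum_of_nonneg (fun M => by positivity) h3]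
    exact ENNReal.ofReal_ne_top
  rw [← lintegral_tsum (fun M => ((hSm _).pow_const 2).ennreal_ofReal.aemeasurable)] at hsum
  have hae := ae_lt_top (Measurable.ennreal_tsum fun M =>
    ((hSm ((M + 1) ^ 2)).pow_const 2).ennreal_ofReal) hsum
  filter_upwards [hae] with ω hω
  apply of_squares (S := fun n => ∑ k ∈ Finset.range n, Y k ω)
  · intro n m hnm
    show |∑ k ∈ Finset.range m, Y k ω - ∑ k ∈ Finset.range n, Y k ω| ≤ _
    rw [← Finset.sum_range_add_sum_Ico (fun k => Y k ω) hnm, add_sub_cancel_left]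
    refine (Finset.abs_sum_le_sum_abs _ _).trans ((Finset.sum_le_sum fun k _ => hb k ω).trans ?_)
    rw [Finset.sum_const, Nat.card_Ico, nsmul_eq_mul, mul_one, Nat.cast_sub hnm]
  have h3 := ENNReal.tendsto_atTop_zero_of_tsum_ne_top hω.ne
  have h4 : Tendsto (fun M : ℕ => ((∑ k ∈ Finset.range ((M + 1) ^ 2), Y k ω) /
      (((M + 1) ^ 2 : ℕ) : ℝ)) ^ 2) atTop (𝓝 0) := by
    have h5 := (ENNReal.tendsto_toReal ENNReal.zero_ne_top).comp h3
    rw [ENNReal.toReal_zero] at h5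
    refine h5.congr fun M => ?_
    rw [Function.comp_apply, ENNReal.toReal_ofReal (by positivity)]
  rw [tendsto_zero_iff_abs_tendsto_zero]
  have h6 := h4.sqrt
  rw [Real.sqrt_zero] at h6
  refine h6.congr fun M => ?_
  rw [Real.sqrt_sq_eq_abs]
  rfl

/-! ### pair correlations -/

/-- the indicator of a translate -/
def vv (s : ℕ) (T : Finset ℕ) (l : ℕ) : ZMod 2 := if s ≤ l ∧ l - s ∈ T then 1 else 0

theorem sum_vv (s : ℕ) (T : Finset ℕ) (u : ℕ) (hu : ∀ i ∈ T, s + i ≤ u) (f : ℕ → ZMod 2) :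
    ∑ l ∈ Finset.range (u + 1), vv s T l * f l = ∑ i ∈ T, f (s + i) := by
  classical
  have h1 : ∑ i ∈ T, f (s + i) = ∑ l ∈ T.image (fun i => s + i), f l := by
    rw [Finset.sum_image]
    intro a _ b _ hab
    simpa using hab
  have hsub : T.image (fun i => s + i) ⊆ Finset.range (u + 1) := by
    intro l hl
    obtain ⟨i, hi, rfl⟩ := Finset.mem_image.1 hl
    rw [Finset.mem_range]
    have := hu i hi
    omega
  rw [h1, ← Finset.sum_subset hsub (f := fun l => vv s T l * f l)]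
  · refine Finset.sum_congr rfl fun l hl => ?_
    obtain ⟨i, hi, rfl⟩ := Finset.mem_image.1 hl
    unfold vv
    rw [if_pos ⟨by omega, by rwa [Nat.add_sub_cancel_left]⟩, one_mul]
  · intro l _ hl
    unfold vv
    rw [if_neg, zero_mul]
    rintro ⟨h2, h3⟩
    exact hl (Finset.mem_image.2 ⟨l - s, h3, by omega⟩)

/-- the sign of a pattern -/
noncomputable def Yf (c : (ℕ → Bool) → ℕ → ZMod 2) (s : ℕ) (T : Finset ℕ) (r : ℕ → Bool) : ℝ :=
  ∏ i ∈ T, chi (c r (s + i))

theorem Yf_abs (s : ℕ) (T : Finset ℕ) (r : ℕ → Bool) : |Yf c s T r| = 1 := by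
  unfold Yf
  rw [Finset.abs_prod]
  exact Finset.prod_eq_one fun i _ => abs_chi _

theorem Yf_dep (H : Tri c) (s : ℕ) (T : Finset ℕ) : ∃ N, Dep N (Yf c s T) := by
  refine ⟨s + T.sup id, fun r r' Hr => ?_⟩
  unfold Yf
  refine Finset.prod_congr rfl fun i hi => ?_
  have h1 : i ≤ T.sup id := Finset.le_sup (f := id) hi
  rw [H.dep (r := r) (r' := r') fun a ha => Hr a (by omega)]

theorem Yf_mul {s s' : ℕ} (hs : s < s') (T : Finset ℕ) (hT : T.Nonempty) :
    ∃ (v : ℕ → ZMod 2) (u : ℕ), s' ≤ u ∧ v u = 1 ∧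
      ∀ r, Yf c s T r * Yf c s' T r = chi (fn c v u r) := by
  obtain ⟨τ, hτ⟩ : ∃ τ, τ = T.max' hT := ⟨_, rfl⟩
  have hτT : τ ∈ T := hτ ▸ T.max'_mem hT
  have hmax : ∀ i ∈ T, i ≤ τ := fun i hi => hτ ▸ T.le_max' i hi
  refine ⟨fun l => vv s T l + vv s' T l, s' + τ, by omega, ?_, fun r => ?_⟩
  · show vv s T (s' + τ) + vv s' T (s' + τ) = 1
    unfold vv
    rw [if_neg, if_pos ⟨by omega, by rwa [Nat.add_sub_cancel_left]⟩, zero_add]
    rintro ⟨_, h2⟩
    have := hmax _ h2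
    omega
  · unfold Yf fn
    rw [← chi_sum, ← chi_sum, ← chi_add]
    congr 1
    simp only [add_mul]
    rw [Finset.sum_add_distrib, sum_vv s T (s' + τ) (fun i hi => by have := hmax i hi; omega),
      sum_vv s' T (s' + τ) (fun i hi => by have := hmax i hi; omega)]

/-- the hypothesis on the probabilities -/
def Spread (P : Measure Ω) (ξ : ℕ → Ω → Bool) (b : ℕ) : Prop :=
  ∀ a, b < a → √(Real.log a / a) ≤ rho P ξ a ∧ rho P ξ a ≤ 1 - √(Real.log a / a)

theorem chi_bound (H : Tri c) (hm : ∀ a, Measurable (ξ a)) (hi : iIndepFun ξ P) {b : ℕ}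
    (hb3 : 3 ≤ b) (hs : Spread P ξ b) (v : ℕ → ZMod 2) (u : ℕ) (hu : 1 ≤ u) (hv : v u = 1) :
    |∫ ω, chi (fn c v u (fun a => ξ a ω)) ∂P| ≤ Real.exp (2 * (1 + b)) / u := by
  have hu0 : (0 : ℝ) < u := by exact_mod_cast hu
  have htriv : |∫ ω, chi (fn c v u (fun a => ξ a ω)) ∂P| ≤ 1 := by
    refine abs_integral_le_integral_abs.trans ?_
    simp only [abs_chi]
    simp
  rcases Nat.lt_or_ge u (2 * b) with hub | hub
  · refine htriv.trans ?_
    rw [le_div_iff₀ hu0, one_mul]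
    have h1 : (u : ℝ) < 2 * b := by exact_mod_cast hub
    have h2 := Real.add_one_le_exp (2 * (1 + (b : ℝ)))
    linarith
  have hub' : b < u := by omega
  obtain ⟨x, hx⟩ : ∃ x : ℝ, x = Real.log u / u := ⟨_, rfl⟩
  have hx0 : 0 ≤ x := by
    rw [hx]
    exact div_nonneg (Real.log_natCast_nonneg u) hu0.le
  have hx1 : x ≤ 1 := by
    rw [hx, div_le_one hu0]
    exact (Real.log_le_sub_one_of_pos hu0).trans (by linarith)
  have hσ := hs u hub'
  rw [← hx] at hσ
  have hσ1 : √x ≤ 1 / 2 := by linarith [hσ.1, hσ.2]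
  have hmon : ∀ a, b < a → a ≤ u → √x ≤ rho P ξ a ∧ rho P ξ a ≤ 1 - √x := by
    intro a ha hau
    have h1 : x ≤ Real.log a / a := by
      rw [hx]
      have h2 : Real.exp 1 ≤ (a : ℝ) := by
        have h3 := Real.exp_one_lt_d9
        have h4 : (4 : ℝ) ≤ a := by exact_mod_cast (by omega : 4 ≤ a)
        linarith
      exact Real.log_div_self_antitoneOn h2 (h2.trans (by exact_mod_cast hau)) (by exact_mod_cast hau)
    have h5 := Real.sqrt_le_sqrt h1
    have h6 := hs a ha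
    constructor <;> linarith [h6.1, h6.2]
  have h1 := decorr H hm hi v u hv (Real.sqrt_nonneg x) hσ1 (by omega : b ≤ u / 2) hmon
  rw [Real.sq_sqrt hx0] at h1
  refine h1.trans ?_
  have h2 : 0 ≤ 1 - 2 * x := by
    have := Real.sq_sqrt hx0
    nlinarith [Real.sqrt_nonneg x]
  have h3 : 1 - 2 * x ≤ Real.exp (-(2 * x)) := by
    have := Real.add_one_le_exp (-(2 * x))
    linarith
  have h4 : (1 - 2 * x) ^ (u - u / 2 - 1 - b) ≤
      Real.exp (-(2 * x) * ((u - u / 2 - 1 - b : ℕ) : ℝ)) := by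
    rw [mul_comm (-(2 * x)) (((u - u / 2 - 1 - b : ℕ) : ℝ)), Real.exp_nat_mul]
    exact pow_le_pow_left₀ h2 h3 _
  refine h4.trans ?_
  have h5 : (u : ℝ) / 2 - 1 - b ≤ ((u - u / 2 - 1 - b : ℕ) : ℝ) := by
    have h6 : u ≤ 2 * (u - u / 2 - 1 - b) + 2 + 2 * b := by omega
    have h7 : (u : ℝ) ≤ 2 * ((u - u / 2 - 1 - b : ℕ) : ℝ) + 2 + 2 * b := by exact_mod_cast h6
    linarith
  have h6 : Real.exp (2 * (1 + b)) / u = Real.exp (2 * (1 + b) - Real.log u) := by
    rw [Real.exp_sub, Real.exp_log hu0]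
  rw [h6, Real.exp_le_exp]
  have h7 : x * u = Real.log u := by
    rw [hx]
    field_simp
  have hb0 : (0 : ℝ) ≤ b := Nat.cast_nonneg b
  nlinarith [mul_le_mul_of_nonneg_left h5 hx0, mul_le_mul_of_nonneg_right hx1 hb0]

theorem Y_meas (H : Tri c) (hm : ∀ a, Measurable (ξ a)) (s : ℕ) (T : Finset ℕ) :
    Measurable fun ω => Yf c s T (fun a => ξ a ω) := by
  obtain ⟨N, hN⟩ := Yf_dep H s T
  exact hN.measurable hm

theorem second_moment (H : Tri c) (hm : ∀ a, Measurable (ξ a)) (hi : iIndepFun ξ P) {b : ℕ}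
    (hb3 : 3 ≤ b) (hs : Spread P ξ b) {s : ℕ → ℕ} (hs' : StrictMono s) (T : Finset ℕ)
    (hT : T.Nonempty) (x : ℕ) :
    ∫ ω, (∑ k ∈ Finset.range x, Yf c (s k) T (fun a => ξ a ω)) ^ 2 ∂P ≤
      (2 * Real.exp (2 * (1 + b)) + 1) * x := by
  have hYb : ∀ k ω, |Yf c (s k) T (fun a => ξ a ω)| ≤ 1 := fun k ω => (Yf_abs _ _ _).le
  have hYm : ∀ k, Measurable fun ω => Yf c (s k) T (fun a => ξ a ω) := fun k => Y_meas H hm _ _
  have hSm : ∀ x : ℕ, Measurable fun ω => ∑ k ∈ Finset.range x, Yf c (s k) T (fun a => ξ a ω) :=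
    fun x => Finset.measurable_sum _ fun k _ => hYm k
  have hSb : ∀ (N : ℕ) (ω : Ω), |∑ k ∈ Finset.range N, Yf c (s k) T (fun a => ξ a ω)| ≤ N := by
    intro N ω
    refine (Finset.abs_sum_le_sum_abs _ _).trans ((Finset.sum_le_sum fun k _ => hYb k ω).trans ?_)
    simp
  induction x with
  | zero => simp
  | succ x ih =>
    have e1 : ∀ ω, (∑ k ∈ Finset.range (x + 1), Yf c (s k) T (fun a => ξ a ω)) ^ 2 =
        (∑ k ∈ Finset.range x, Yf c (s k) T (fun a => ξ a ω)) ^ 2 +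
        (2 * ∑ k ∈ Finset.range x, Yf c (s k) T (fun a => ξ a ω) * Yf c (s x) T (fun a => ξ a ω))
          + 1 := by
      intro ω
      rw [Finset.sum_range_succ, ← Finset.sum_mul]
      have h1 : Yf c (s x) T (fun a => ξ a ω) ^ 2 = 1 := by
        rw [← sq_abs, Yf_abs, one_pow]
      linear_combination h1
    rw [integral_congr_ae (Eventually.of_forall e1)]
    have i1 : Integrable (fun ω => (∑ k ∈ Finset.range x, Yf c (s k) T (fun a => ξ a ω)) ^ 2) P := by
      refine Integrable.of_bound ((hSm x).pow_const 2).aestronglyMeasurable ((x : ℝ) ^ 2)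
        (Eventually.of_forall fun ω => ?_)
      rw [Real.norm_of_nonneg (by positivity), ← sq_abs]
      exact pow_le_pow_left₀ (abs_nonneg _) (hSb x ω) 2
    have i2' : ∀ k, Integrable (fun ω => Yf c (s k) T (fun a => ξ a ω) *
        Yf c (s x) T (fun a => ξ a ω)) P := by
      intro k
      refine Integrable.of_bound ((hYm k).mul (hYm x)).aestronglyMeasurable 1
        (Eventually.of_forall fun ω => ?_)
      rw [Real.norm_eq_abs, abs_mul, Yf_abs, Yf_abs, one_mul]
    have i2 : Integrable (fun ω => 2 * ∑ k ∈ Finset.range x, Yf c (s k) T (fun a => ξ a ω) *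
        Yf c (s x) T (fun a => ξ a ω)) P :=
      (integrable_finset_sum _ fun k _ => i2' k).const_mul 2
    have i12 : Integrable (fun ω => (∑ k ∈ Finset.range x, Yf c (s k) T (fun a => ξ a ω)) ^ 2 +
        (2 * ∑ k ∈ Finset.range x, Yf c (s k) T (fun a => ξ a ω) *
          Yf c (s x) T (fun a => ξ a ω))) P := i1.add i2
    rw [integral_add i12 (integrable_const _), integral_add i1 i2, integral_const_mul,
      integral_finset_sum _ (fun k _ => i2' k)]
    have h3 : ∑ k ∈ Finset.range x, ∫ ω, Yf c (s k) T (fun a => ξ a ω) *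
        Yf c (s x) T (fun a => ξ a ω) ∂P ≤ Real.exp (2 * (1 + b)) := by
      rcases Nat.eq_zero_or_pos x with rfl | hx
      · simp only [Finset.range_zero, Finset.sum_empty]
        positivity
      · have h4 : ∀ k ∈ Finset.range x, ∫ ω, Yf c (s k) T (fun a => ξ a ω) *
            Yf c (s x) T (fun a => ξ a ω) ∂P ≤ Real.exp (2 * (1 + b)) / x := by
          intro k hk
          rw [Finset.mem_range] at hk
          obtain ⟨v, u, hu, hv, hr⟩ := Yf_mul (c := c) (hs' hk) T hT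
          have hxu : x ≤ u := (hs'.id_le x).trans hu
          have h5 := chi_bound H hm hi hb3 hs v u (by omega) hv
          rw [integral_congr_ae (Eventually.of_forall fun ω => hr (fun a => ξ a ω))]
          refine (le_abs_self _).trans (h5.trans ?_)
          apply div_le_div_of_nonneg_left (Real.exp_pos _).le (by exact_mod_cast hx)
          exact_mod_cast hxu
        refine (Finset.sum_le_sum h4).trans (le_of_eq ?_)
        rw [Finset.sum_const, Finset.card_range, nsmul_eq_mul]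
        have : (x : ℝ) ≠ 0 := by
          have : (0 : ℝ) < x := by exact_mod_cast hx
          exact this.ne'
        field_simp
    simp only [integral_const, probReal_univ, smul_eq_mul, mul_one]
    push_cast
    linarith

theorem signs (H : Tri c) (hm : ∀ a, Measurable (ξ a)) (hi : iIndepFun ξ P) {b : ℕ}
    (hs : Spread P ξ b) {s : ℕ → ℕ} (hs' : StrictMono s) :
    ∀ᵐ ω ∂P, ∀ T : Finset ℕ, T.Nonempty →
      Tendsto (fun x : ℕ => (∑ k ∈ Finset.range x, Yf c (s k) T (fun a => ξ a ω)) / x) atTop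
        (𝓝 0) := by
  rw [ae_all_iff]
  intro T
  by_cases hT : T.Nonempty
  · have hs3 : Spread P ξ (max b 3) := fun a ha => hs a (lt_of_le_of_lt (le_max_left _ _) ha)
    have h1 := slln_sq (P := P) (Y := fun k ω => Yf c (s k) T (fun a => ξ a ω))
      (fun k => Y_meas H hm _ _) (fun k ω => (Yf_abs _ _ _).le) (by positivity)
      (second_moment H hm hi (le_max_right b 3) hs3 hs' T hT)
    filter_upwards [h1] with ω hω _
    exact hω
  · exact Eventually.of_forall fun ω h => absurd h hT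

theorem indicator_eq (r : ℕ → Bool) (s L : ℕ) (wd : ℕ → ZMod 2) :
    (if ∀ i < L, c r (s + i) = wd i then (1 : ℝ) else 0) =
      (1 / 2) ^ L * ∑ T ∈ (Finset.range L).powerset, (∏ i ∈ T, chi (wd i)) * Yf c s T r := by
  have h1 : ∑ T ∈ (Finset.range L).powerset, (∏ i ∈ T, chi (wd i)) * Yf c s T r =
      ∏ i ∈ Finset.range L, (1 + chi (wd i) * chi (c r (s + i))) := by
    rw [Finset.prod_one_add]
    refine Finset.sum_congr rfl fun T _ => ?_
    rw [Finset.prod_mul_distrib]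
    rfl
  rw [h1]
  have h2 : ((1 : ℝ) / 2) ^ L = ∏ i ∈ Finset.range L, (1 / 2 : ℝ) := by simp
  rw [h2, ← Finset.prod_mul_distrib]
  have h3 : ∀ i ∈ Finset.range L, (1 / 2 : ℝ) * (1 + chi (wd i) * chi (c r (s + i))) =
      if c r (s + i) = wd i then 1 else 0 := by
    intro i _
    rcases zmod2 (c r (s + i)) with h | h <;> rcases zmod2 (wd i) with h' | h' <;>
      rw [h, h'] <;> simp [chi] <;> norm_num
  rw [Finset.prod_congr rfl h3]
  by_cases hall : ∀ i < L, c r (s + i) = wd i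
  · rw [if_pos hall]
    symm
    exact Finset.prod_eq_one fun i hi => if_pos (hall i (Finset.mem_range.1 hi))
  · rw [if_neg hall]
    push Not at hall
    obtain ⟨i, hi, hne⟩ := hall
    symm
    exact Finset.prod_eq_zero (Finset.mem_range.2 hi) (if_neg hne)

/-- **All patterns have the right frequency along every increasing sequence.** -/
theorem freq (H : Tri c) (hm : ∀ a, Measurable (ξ a)) (hi : iIndepFun ξ P) {b : ℕ}
    (hs : Spread P ξ b) {s : ℕ → ℕ} (hs' : StrictMono s) :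
    ∀ᵐ ω ∂P, ∀ (L : ℕ) (wd : ℕ → ZMod 2),
      Tendsto (fun x : ℕ => (((Finset.range x).filter fun k => ∀ i < L,
        c (fun a => ξ a ω) (s k + i) = wd i).card : ℝ) / x) atTop (𝓝 ((1 / 2) ^ L)) := by
  filter_upwards [signs H hm hi hs hs'] with ω hω L wd
  have h1 : ∀ x : ℕ, (((Finset.range x).filter fun k => ∀ i < L,
      c (fun a => ξ a ω) (s k + i) = wd i).card : ℝ) / x =
      (1 / 2) ^ L * ∑ T ∈ (Finset.range L).powerset, (∏ i ∈ T, chi (wd i)) *
        ((∑ k ∈ Finset.range x, Yf c (s k) T (fun a => ξ a ω)) / x) := by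
    intro x
    rw [Finset.card_filter]
    push_cast
    rw [Finset.sum_congr rfl fun k _ => indicator_eq (c := c) (fun a => ξ a ω) (s k) L wd,
      ← Finset.mul_sum, Finset.sum_comm, mul_div_assoc, Finset.sum_div]
    congr 1
    refine Finset.sum_congr rfl fun T _ => ?_
    rw [← Finset.mul_sum, mul_div_assoc]
  have h2 : Tendsto (fun x : ℕ => (1 / 2 : ℝ) ^ L * ∑ T ∈ (Finset.range L).powerset,
      (∏ i ∈ T, chi (wd i)) * ((∑ k ∈ Finset.range x, Yf c (s k) T (fun a => ξ a ω)) / x)) atTop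
      (𝓝 ((1 / 2 : ℝ) ^ L * ∑ T ∈ (Finset.range L).powerset,
        (if T = ∅ then (1 : ℝ) else 0))) := by
    refine Tendsto.const_mul _ (tendsto_finset_sum _ fun T _ => ?_)
    by_cases hT : T = ∅
    · subst hT
      rw [if_pos rfl]
      refine tendsto_const_nhds.congr' ?_
      filter_upwards [eventually_ge_atTop 1] with x hx
      have : (x : ℝ) ≠ 0 := by
        have : (0 : ℝ) < x := by exact_mod_cast hx
        exact this.ne'
      simp [Yf, this]
    · rw [if_neg hT]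
      have h3 := (hω T (Finset.nonempty_iff_ne_empty.2 hT)).const_mul (∏ i ∈ T, chi (wd i))
      rw [mul_zero] at h3
      exact h3
  have h3 : ∑ T ∈ (Finset.range L).powerset, (if T = ∅ then (1 : ℝ) else 0) = 1 := by
    rw [Finset.sum_ite_eq' , if_pos (Finset.empty_mem_powerset _)]
  rw [h3, mul_one] at h2
  exact h2.congr fun x => (h1 x).symm

end Pool.Agent.R978.PD
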