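import Pool.Agent.R978.PD.C

/-!
# Partitions with deleted parts form a triangular family (helper978)
-/

set_option autoImplicit false

open MeasureTheory ProbabilityTheory Filter Topology

namespace Pool.Agent.R978.PD

/-- the partitions of `n` which avoid the parts `a` with `r a = true` -/
def avs (r : ℕ → Bool) (n : ℕ) : Finset (Nat.Partition n) :=
  Finset.univ.filter fun p => ∀ a ∈ p.parts, r a = false

/-- their number -/
def av (r : ℕ → Bool) (n : ℕ) : ℕ := (avs r n).card

theorem mem_avs {r : ℕ → Bool} {n : ℕ} {p : Nat.Partition n} :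
    p ∈ avs r n ↔ ∀ a ∈ p.parts, r a = false := by
  simp [avs]

theorem parts_zero (p : Nat.Partition 0) : p.parts = 0 := by
  rw [Multiset.eq_zero_iff_forall_notMem]
  intro a ha
  have h1 := p.le_of_mem_parts ha
  have h2 := p.parts_pos ha
  omega

theorem av_zero (r : ℕ → Bool) : av r 0 = 1 := by
  unfold av
  rw [Finset.card_eq_one]
  refine ⟨⟨0, by simp, by simp⟩, ?_⟩
  ext p
  rw [Finset.mem_singleton, mem_avs]
  constructor
  · intro _
    apply Nat.Partition.ext
    rw [parts_zero p]
  · intro _ a ha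
    rw [parts_zero p] at ha
    exact absurd ha (Multiset.notMem_zero a)

/-- adjoin a part -/
def addPart (n a : ℕ) (ha : 0 < a) (han : a ≤ n) (p : Nat.Partition (n - a)) : Nat.Partition n where
  parts := a ::ₘ p.parts
  parts_pos := by
    intro i hi
    rcases Multiset.mem_cons.1 hi with h | h
    · omega
    · exact p.parts_pos h
  parts_sum := by
    rw [Multiset.sum_cons, p.parts_sum]
    omega

/-- remove a part -/
def delPart (n a : ℕ) (q : Nat.Partition n) (ha : a ∈ q.parts) : Nat.Partition (n - a) where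
  parts := q.parts.erase a
  parts_pos := by
    intro i hi
    exact q.parts_pos (Multiset.mem_of_mem_erase hi)
  parts_sum := by
    have h1 := Multiset.cons_erase ha
    have h2 := congrArg Multiset.sum h1
    rw [Multiset.sum_cons, q.parts_sum] at h2
    omega

theorem avs_sub (r : ℕ → Bool) (h n : ℕ) : avs r n ⊆ avs (tr h r) n := by
  intro p hp
  rw [mem_avs] at hp ⊢
  intro a ha
  simp [tr, hp a ha]

theorem av_step (r : ℕ → Bool) (h n : ℕ) (hn : n ≤ 2 * h + 1) :
    av (tr h r) n = av r n + ∑ a ∈ Finset.Ioc h n, (if r a then av r (n - a) else 0) := by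
  unfold av
  rw [← Finset.card_sdiff_add_card_eq_card (avs_sub r h n), add_comm]
  congr 1
  rw [← Finset.sum_filter, ← Finset.card_sigma]
  symm
  refine Finset.card_bij
    (fun x hx => addPart n x.1 ?_ ?_ x.2) ?_ ?_ ?_
  · have := (Finset.mem_sigma.1 hx).1
    simp only [Finset.mem_filter, Finset.mem_Ioc] at this
    omega
  · have := (Finset.mem_sigma.1 hx).1
    simp only [Finset.mem_filter, Finset.mem_Ioc] at this
    omega
  · rintro ⟨a, p⟩ hx
    rw [Finset.mem_sigma] at hx
    simp only [Finset.mem_filter, Finset.mem_Ioc] at hx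
    obtain ⟨⟨⟨h1, h2⟩, h3⟩, h4⟩ := hx
    rw [mem_avs] at h4
    refine Finset.mem_sdiff.2 ⟨mem_avs.2 ?_, fun H' => ?_⟩
    · intro b hb
      rcases Multiset.mem_cons.1 hb with hb | hb
      · subst hb
        simp only [tr]
        rw [decide_eq_false (by omega), Bool.false_and]
      · simp [tr, h4 b hb]
    · have := mem_avs.1 H' a (Multiset.mem_cons_self a _)
      rw [h3] at this
      exact absurd this (by simp)
  · rintro ⟨a, p⟩ hx ⟨a', p'⟩ hx' heq
    rw [Finset.mem_sigma] at hx hx'
    simp only [Finset.mem_filter, Finset.mem_Ioc] at hx hx'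
    have hq : a ::ₘ p.parts = a' ::ₘ p'.parts := congrArg Nat.Partition.parts heq
    have haa : a' = a := by
      have h1 : a' ∈ a ::ₘ p.parts := by
        rw [hq]
        exact Multiset.mem_cons_self _ _
      rcases Multiset.mem_cons.1 h1 with h1 | h1
      · exact h1
      · have h2 := p.le_of_mem_parts h1
        omega
    subst haa
    have hp : p = p' := by
      apply Nat.Partition.ext
      exact (Multiset.cons_inj_right _).1 hq
    rw [hp]
  · intro q hq
    rw [Finset.mem_sdiff, mem_avs, mem_avs] at hq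
    obtain ⟨h1, h2⟩ := hq
    push Not at h2
    obtain ⟨a, ha, h3⟩ := h2
    have h4 : r a = true := by
      cases hra : r a
      · exact absurd hra h3
      · rfl
    have h5 : h < a := by
      by_contra hc
      have h6 := h1 a ha
      simp [tr, h4, not_lt.1 hc] at h6
    have h6 := q.le_of_mem_parts ha
    refine ⟨⟨a, delPart n a q ha⟩, ?_, ?_⟩
    · rw [Finset.mem_sigma]
      simp only [Finset.mem_filter, Finset.mem_Ioc]
      refine ⟨⟨⟨h5, h6⟩, h4⟩, ?_⟩
      rw [mem_avs]
      intro b hb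
      have h7 := (delPart n a q ha).le_of_mem_parts hb
      have h8 := h1 b (Multiset.mem_of_mem_erase hb)
      have h9 : b ≤ h := by omega
      simpa [tr, h9] using h8
    · apply Nat.Partition.ext
      exact Multiset.cons_erase ha

/-! ### Powers and products modulo 2 -/

open PowerSeries

/-- the generating series modulo 2 -/
noncomputable def ser (r : ℕ → Bool) : (ZMod 2)⟦X⟧ := PowerSeries.mk fun n => (av r n : ZMod 2)

/-- the large deleted parts -/
noncomputable def big (r : ℕ → Bool) (h : ℕ) : (ZMod 2)⟦X⟧ :=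
  PowerSeries.mk fun a => if h < a ∧ r a = true then 1 else 0

theorem big_dvd (r : ℕ → Bool) (h : ℕ) : (PowerSeries.X : (ZMod 2)⟦X⟧) ^ (h + 1) ∣ big r h := by
  rw [PowerSeries.X_pow_dvd_iff]
  intro m hm
  unfold big
  rw [PowerSeries.coeff_mk, if_neg]
  rintro ⟨h1, -⟩
  omega

theorem coeff_mul_big (F : (ZMod 2)⟦X⟧) (r : ℕ → Bool) (h n : ℕ) :
    PowerSeries.coeff n (F * (1 + big r h)) =
      PowerSeries.coeff n F + ∑ a ∈ Finset.Ioc h n, (if r a then PowerSeries.coeff (n - a) F else 0) := by
  rw [mul_add, mul_one, map_add]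
  congr 1
  rw [mul_comm, PowerSeries.coeff_mul, Finset.Nat.sum_antidiagonal_eq_sum_range_succ_mk]
  have h1 : Finset.Ioc h n ⊆ Finset.range n.succ := by
    intro a ha
    rw [Finset.mem_Ioc] at ha
    rw [Finset.mem_range]
    omega
  rw [← Finset.sum_subset h1]
  · refine Finset.sum_congr rfl fun a ha => ?_
    rw [Finset.mem_Ioc] at ha
    unfold big
    rw [PowerSeries.coeff_mk]
    by_cases hr : r a = true
    · rw [if_pos ⟨ha.1, hr⟩, if_pos hr, one_mul]
    · rw [if_neg (fun hh => hr hh.2), if_neg hr, zero_mul]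
  · intro a ha hna
    rw [Finset.mem_range] at ha
    rw [Finset.mem_Ioc] at hna
    unfold big
    rw [PowerSeries.coeff_mk, if_neg, zero_mul]
    rintro ⟨h2, -⟩
    omega

theorem ser_tr (r : ℕ → Bool) (h : ℕ) :
    (PowerSeries.X : (ZMod 2)⟦X⟧) ^ (2 * h + 2) ∣ ser (tr h r) - ser r * (1 + big r h) := by
  rw [PowerSeries.X_pow_dvd_iff]
  intro n hn
  rw [map_sub, coeff_mul_big]
  unfold ser
  simp only [PowerSeries.coeff_mk]
  rw [av_step r h n (by omega), sub_eq_zero]
  push_cast
  rfl

theorem one_add_big (r : ℕ → Bool) (h : ℕ) {t : ℕ} (ht : Odd t) :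
    (PowerSeries.X : (ZMod 2)⟦X⟧) ^ (2 * h + 2) ∣ (1 + big r h) ^ t - (1 + big r h) := by
  obtain ⟨m, rfl⟩ := ht
  have h2 : (2 : (ZMod 2)⟦X⟧) = 0 := by
    have : (2 : (ZMod 2)⟦X⟧) = PowerSeries.C (2 : ZMod 2) := by rw [map_ofNat]
    rw [this, show (2 : ZMod 2) = 0 by decide, map_zero]
  have h1 : (1 + big r h) ^ 2 = 1 + big r h ^ 2 := by
    linear_combination (big r h) * h2
  have h3 : (PowerSeries.X : (ZMod 2)⟦X⟧) ^ (2 * h + 2) ∣ (1 + big r h) ^ 2 - 1 := by
    rw [h1, add_sub_cancel_left]
    have := pow_dvd_pow_of_dvd (big_dvd r h) 2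
    rw [← pow_mul] at this
    rwa [show (h + 1) * 2 = 2 * h + 2 by ring] at this
  have h4 : (1 + big r h) ^ 2 - 1 ∣ ((1 + big r h) ^ 2) ^ m - 1 := by
    have := sub_dvd_pow_sub_pow ((1 + big r h) ^ 2) 1 m
    rwa [one_pow] at this
  have h5 : (1 + big r h) ^ (2 * m + 1) - (1 + big r h) =
      (((1 + big r h) ^ 2) ^ m - 1) * (1 + big r h) := by
    rw [pow_succ, pow_mul, sub_mul, one_mul]
  rw [h5]
  exact (h3.trans h4).mul_right _

/-- the coefficients of `B * (series of the partitions avoiding r) ^ t` -/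
noncomputable def cB (B : (ZMod 2)⟦X⟧) (t : ℕ) (r : ℕ → Bool) (n : ℕ) : ZMod 2 :=
  PowerSeries.coeff n (B * ser r ^ t)

theorem tri_cB {B : (ZMod 2)⟦X⟧} (hB : PowerSeries.coeff 0 B = 1) {t : ℕ} (ht : Odd t) :
    Tri (cB B t) where
  zero := by
    intro r
    unfold cB
    rw [PowerSeries.coeff_zero_eq_constantCoeff_apply] at hB ⊢
    rw [map_mul, map_pow, hB, one_mul]
    have : PowerSeries.constantCoeff (ser r) = 1 := by
      rw [← PowerSeries.coeff_zero_eq_constantCoeff_apply]
      unfold ser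
      rw [PowerSeries.coeff_mk, av_zero, Nat.cast_one]
    rw [this, one_pow]
  step := by
    intro r h n hn
    have h1 : (PowerSeries.X : (ZMod 2)⟦X⟧) ^ (2 * h + 2) ∣
        ser (tr h r) ^ t - (ser r * (1 + big r h)) ^ t :=
      (ser_tr r h).trans (sub_dvd_pow_sub_pow _ _ t)
    have h2 : (PowerSeries.X : (ZMod 2)⟦X⟧) ^ (2 * h + 2) ∣
        B * ser (tr h r) ^ t - (B * ser r ^ t) * (1 + big r h) := by
      have e : B * ser (tr h r) ^ t - (B * ser r ^ t) * (1 + big r h) =
          B * (ser (tr h r) ^ t - (ser r * (1 + big r h)) ^ t) +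
          (B * ser r ^ t) * ((1 + big r h) ^ t - (1 + big r h)) := by
        rw [mul_pow]
        ring
      rw [e]
      exact dvd_add (h1.mul_left _) ((one_add_big r h ht).mul_left _)
    rw [PowerSeries.X_pow_dvd_iff] at h2
    have h3 := h2 n (by omega)
    rw [map_sub, coeff_mul_big, sub_eq_zero] at h3
    unfold cB
    rw [h3]
    have h4 : ∀ x : ZMod 2, x + x = 0 := by decide
    rw [add_assoc, h4, add_zero]

end Pool.Agent.R978.PD
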