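import Pool.Agent.R978.PD.D

/-!
# Random sets of deleted parts (helper978)
-/

set_option autoImplicit false

open MeasureTheory ProbabilityTheory Filter Topology

namespace Pool.Agent.R978.PD

/-- the number of partitions of `n` none of whose parts is in `R` -/
noncomputable def avoiding (R : Set ℕ) (n : ℕ) : ℕ :=
  Nat.card {p : Nat.Partition n // ∀ a ∈ p.parts, a ∉ R}

open Classical in
/-- indicator of a set, as a Bool sequence -/
noncomputable def ind (R : Set ℕ) (a : ℕ) : Bool := decide (a ∈ R)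

theorem ind_iff (R : Set ℕ) (a : ℕ) : ind R a = true ↔ a ∈ R := by
  simp [ind]

theorem ind_false (R : Set ℕ) (a : ℕ) : ind R a = false ↔ a ∉ R := by
  simp [ind]

theorem avoiding_eq (R : Set ℕ) (n : ℕ) : avoiding R n = av (ind R) n := by
  classical
  unfold avoiding av avs
  rw [Nat.card_eq_fintype_card, Fintype.card_subtype]
  congr 1
  ext p
  simp only [Finset.mem_filter, Finset.mem_univ, true_and, ind_false]

variable {Ω : Type} [MeasurableSpace Ω] {P : Measure Ω} [IsProbabilityMeasure P]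

theorem main (R : Ω → Set ℕ) (hm : ∀ a : ℕ, MeasurableSet {ω | a ∈ R ω})
    (hi : iIndepSet (fun a : ℕ => {ω | a ∈ R ω}) P)
    (hR : ∀ᶠ a : ℕ in atTop, √(Real.log a / a) ≤ P.real {ω | a ∈ R ω} ∧
      P.real {ω | a ∈ R ω} ≤ 1 - √(Real.log a / a))
    {B : PowerSeries (ZMod 2)} (hB : PowerSeries.coeff 0 B = 1) {t : ℕ} (ht : Odd t)
    {s : ℕ → ℕ} (hs : StrictMono s) :
    ∀ᵐ ω ∂P, ∀ (L : ℕ) (w : ℕ → ZMod 2),
      Tendsto (fun x : ℕ => (((Finset.range x).filter fun k => ∀ i < L,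
        cB B t (ind (R ω)) (s k + i) = w i).card : ℝ) / x) atTop (𝓝 ((1 / 2) ^ L)) := by
  obtain ⟨b, hb⟩ := eventually_atTop.1 hR
  have hset : ∀ a : ℕ, {ω | ind (R ω) a = true} = {ω | a ∈ R ω} := by
    intro a
    ext ω
    exact ind_iff _ _
  have hm' : ∀ a : ℕ, Measurable fun ω => ind (R ω) a := by
    intro a
    refine measurable_to_bool ?_
    have : (fun ω => ind (R ω) a) ⁻¹' {true} = {ω | a ∈ R ω} := by
      rw [← hset a]
      rfl
    rw [this]
    exact hm a
  have hi' : iIndepFun (fun a ω => ind (R ω) a) P := by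
    have h1 := hi.iIndepFun_indicator (β := ℕ) (m := ⊤)
    have h2 := h1.comp (fun _ (x : ℕ) => decide (x = 1)) (fun _ => measurable_from_top)
    refine h2.congr fun a => ?_
    refine Eventually.of_forall fun ω => ?_
    by_cases h : a ∈ R ω
    · simp [ind, h, Set.indicator]
    · simp [ind, h, Set.indicator]
  have hsp : Spread P (fun a ω => ind (R ω) a) b := by
    intro a ha
    have h3 := hb a ha.le
    unfold rho
    rw [hset a]
    exact h3
  exact freq (tri_cB hB ht) hm' hi' hsp hs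

theorem cB_one (R : Set ℕ) (n : ℕ) : cB 1 1 (ind R) n = (avoiding R n : ZMod 2) := by
  unfold cB ser
  rw [one_mul, pow_one, PowerSeries.coeff_mk, avoiding_eq]

/-- the number of `t`-tuples of partitions avoiding `R` with total sum `n` -/
noncomputable def mavoiding (R : Set ℕ) (t n : ℕ) : ℕ :=
  ∑ x ∈ Finset.Nat.antidiagonalTuple t n, ∏ i, avoiding R (x i)

theorem sum_antidiagonalTuple_succ (c : ℕ → ℕ) (t n : ℕ) :
    ∑ x ∈ Finset.Nat.antidiagonalTuple (t + 1) n, ∏ i, c (x i) =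
      ∑ ab ∈ Finset.HasAntidiagonal.antidiagonal n, c ab.1 *
        ∑ y ∈ Finset.Nat.antidiagonalTuple t ab.2, ∏ i, c (y i) := by
  simp_rw [Finset.mul_sum]
  rw [Finset.sum_sigma']
  symm
  refine Finset.sum_bij' (fun p _ => (Fin.cons p.1.1 p.2 : Fin (t + 1) → ℕ))
    (fun x _ => ⟨(x 0, ∑ i, Fin.tail x i), Fin.tail x⟩) ?_ ?_ ?_ ?_ ?_
  · rintro ⟨⟨a, b⟩, y⟩ h
    rw [Finset.mem_sigma, Finset.HasAntidiagonal.mem_antidiagonal, Finset.Nat.mem_antidiagonalTuple] at h
    simp only at h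
    rw [Finset.Nat.mem_antidiagonalTuple, Fin.sum_univ_succ]
    simp only [Fin.cons_zero, Fin.cons_succ]
    rw [h.2, h.1]
  · intro x h
    rw [Finset.Nat.mem_antidiagonalTuple, Fin.sum_univ_succ] at h
    rw [Finset.mem_sigma, Finset.HasAntidiagonal.mem_antidiagonal, Finset.Nat.mem_antidiagonalTuple]
    exact ⟨h, rfl⟩
  · rintro ⟨⟨a, b⟩, y⟩ h
    rw [Finset.mem_sigma, Finset.HasAntidiagonal.mem_antidiagonal, Finset.Nat.mem_antidiagonalTuple] at h
    simp only at h
    obtain ⟨h1, h2⟩ := h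
    subst h2
    simp
  · intro x h
    simp
  · rintro ⟨⟨a, b⟩, y⟩ h
    simp [Fin.prod_univ_succ]

theorem coeff_ser_pow (R : Set ℕ) (t n : ℕ) :
    PowerSeries.coeff n (ser (ind R) ^ t) = (mavoiding R t n : ZMod 2) := by
  induction t generalizing n with
  | zero =>
    rw [pow_zero, PowerSeries.coeff_one]
    unfold mavoiding
    rcases n with _ | n
    · simp
    · simp
  | succ t ih =>
    rw [pow_succ', PowerSeries.coeff_mul]
    unfold mavoiding at ih ⊢
    rw [sum_antidiagonalTuple_succ]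
    push_cast
    refine Finset.sum_congr rfl fun ab _ => ?_
    rw [ih]
    unfold ser
    rw [PowerSeries.coeff_mk, avoiding_eq]
    push_cast
    rfl

theorem cB_gen (R : Set ℕ) (B : ℕ → ℤ) (t n : ℕ) :
    cB (PowerSeries.mk fun m => (B m : ZMod 2)) t (ind R) n =
      ((∑ ab ∈ Finset.HasAntidiagonal.antidiagonal n, B ab.1 * (mavoiding R t ab.2 : ℤ) : ℤ) :
        ZMod 2) := by
  unfold cB
  rw [PowerSeries.coeff_mul]
  push_cast
  refine Finset.sum_congr rfl fun ab _ => ?_
  rw [coeff_ser_pow, PowerSeries.coeff_mk]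

end Pool.Agent.R978.PD
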